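import Mathlib
import Pool.Agent.H584.NF.Pid
import Pool.Agent.H584.NF.RadK
import Pool.Agent.H584.SH.Main2
import Pool.Graph.R_seed8.Y382.Gold

/-!
# The three radicals of the triples over `ℤ[(1 + √5) / 2]`: every shape on the boundary, in every
# open set of the plane

For `α + β + γ < 1` the abc conjecture over `O = ℤ[(1 + √5) / 2]` implies that, up to units, only
finitely many triples `a + b + c = 0` in lowest terms satisfy `rad(a) ≤ |N(a)| ^ α`,
`rad(b) ≤ |N(b)| ^ β`, `rad(c) ≤ |N(c)| ^ γ`. We show that on the boundary plane `α + β + γ = 1`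
there are infinitely many for every rational point with `α, β, γ ≥ 0`. If `α, β, γ > 0`, then the
three radicals can be made smaller by any constant factor (in particular `H(a, b, c) ≥ T rad(a, b, c)`
for any given `T`) and at the same time the two conjugates of `a / c` can be prescribed
approximately: they are dense in the plane.

The proof uses the Padé approximants of `(1 - t) ^ N`, at arguments `t` near prescribed real numbers
in the two real embeddings and near roots of the Padé polynomials at three primes of degree one;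
`1 - t` is, up to a fixed factor, a quotient of powers of two rational integers.
-/

set_option autoImplicit false

namespace Pool.Agent.Results.MP_2a5a28_nt.RadicalShapes

open NumberField IsDedekindDomain

variable {K : Type} [Field K] [NumberField K]

/-- the triples in lowest terms with `a + b + c = 0` and `abc ≠ 0` -/
structure Triple (t : 𝓞 K × 𝓞 K × 𝓞 K) : Prop where
  sum : t.1 + t.2.1 + t.2.2 = 0
  ne : t.1 * t.2.1 * t.2.2 ≠ 0
  cop : Ideal.span {t.1, t.2.1, t.2.2} = (⊤ : Ideal (𝓞 K))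

/-- the height `H(a, b, c)`: the product over the field embeddings `φ : K → ℂ` (two real ones when
`K = ℚ(√5)`) of `max (|φ a|, |φ b|, |φ c|)` -/
noncomputable def height (t : 𝓞 K × 𝓞 K × 𝓞 K) : ℝ :=
  ∏ φ : K →+* ℂ, max ‖φ t.1‖ (max ‖φ t.2.1‖ ‖φ t.2.2‖)

/-- the radical of `x`: the product of the norms of the prime ideals dividing `x` -/
noncomputable def rad (x : 𝓞 K) : ℝ :=
  ∏ᶠ (P : HeightOneSpectrum (𝓞 K)) (_ : x ∈ P.asIdeal), (Ideal.absNorm P.asIdeal : ℝ)

/-- `|N(x)|` -/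
noncomputable def nm (x : 𝓞 K) : ℝ := |((Algebra.norm ℤ x : ℤ) : ℝ)|

/-- the triples with `T rad(a) ≤ |N(a)| ^ α`, `T rad(b) ≤ |N(b)| ^ β`, `T rad(c) ≤ |N(c)| ^ γ` -/
structure Shaped (T α β γ : ℝ) (t : 𝓞 K × 𝓞 K × 𝓞 K) : Prop where
  triple : Triple t
  fst : T * rad t.1 ≤ nm t.1 ^ α
  snd : T * rad t.2.1 ≤ nm t.2.1 ^ β
  trd : T * rad t.2.2 ≤ nm t.2.2 ^ γ

lemma nm_eq (x : 𝓞 K) : nm x = H584.NF.nn x := by
  unfold nm H584.NF.nn
  rw [Ideal.absNorm_span_singleton, Nat.cast_natAbs]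
  push_cast
  rfl

lemma rad_le {x : 𝓞 K} (hx : x ≠ 0) : rad x ≤ H584.NF.RN x := H584.NF.finprod_le_RN hx

lemma nm_neg (x : 𝓞 K) : nm (-x) = nm x := by rw [nm_eq, nm_eq, H584.NF.nn_neg]

lemma rad_neg (x : 𝓞 K) : rad (-x) = rad x := by
  unfold rad
  simp only [neg_mem_iff]

lemma nm_prod (x : 𝓞 K) : nm x = ∏ φ : K →+* ℂ, ‖φ (x : K)‖ := by
  rw [nm_eq, H584.NF.nn_prod]
  rfl

lemma nm_le_height (t : 𝓞 K × 𝓞 K × 𝓞 K) : nm t.1 ≤ height t ∧ nm t.2.1 ≤ height t ∧
    nm t.2.2 ≤ height t := by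
  simp only [nm_prod]
  unfold height
  refine ⟨Finset.prod_le_prod (fun _ _ => norm_nonneg _) fun φ _ => le_max_left _ _,
    Finset.prod_le_prod (fun _ _ => norm_nonneg _) fun φ _ => (le_max_left _ _).trans
      (le_max_right _ _),
    Finset.prod_le_prod (fun _ _ => norm_nonneg _) fun φ _ => (le_max_right _ _).trans
      (le_max_right _ _)⟩

lemma rad_nonneg (x : 𝓞 K) : 0 ≤ rad x :=
  finprod_mem_induction (fun x : ℝ => 0 ≤ x) zero_le_one (fun _ _ => mul_nonneg)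
    fun _ _ => Nat.cast_nonneg _

/-- every embedding of the field is one of two given real ones -/
lemma emb_cases (hK : Module.finrank ℚ K = 2) {φ ψ : K →+* ℝ} (hφψ : φ ≠ ψ) (τ : K →+* ℂ) :
    τ = Complex.ofRealHom.comp φ ∨ τ = Complex.ofRealHom.comp ψ := by
  classical
  have hne : Complex.ofRealHom.comp φ ≠ Complex.ofRealHom.comp ψ := by
    intro h
    apply hφψ
    ext x
    have := RingHom.congr_fun h x
    simpa using this
  have hcard : Fintype.card (K →+* ℂ) = 2 := by rw [Embeddings.card K ℂ, hK]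
  by_contra hcon
  push Not at hcon
  have h3 : ({τ, Complex.ofRealHom.comp φ, Complex.ofRealHom.comp ψ} : Finset (K →+* ℂ)).card = 3 :=
    Finset.card_eq_three.2 ⟨_, _, _, hcon.1, hcon.2, hne, rfl⟩
  have h4 := Finset.card_le_univ
    ({τ, Complex.ofRealHom.comp φ, Complex.ofRealHom.comp ψ} : Finset (K →+* ℂ))
  rw [h3, hcard] at h4
  omega

lemma isReal_ofReal (φ : K →+* ℝ) : ComplexEmbedding.IsReal (Complex.ofRealHom.comp φ) := by
  rw [ComplexEmbedding.isReal_iff]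
  ext x
  simp [ComplexEmbedding.conjugate_coe_eq]

lemma part1 (hK : Module.finrank ℚ K = 2) {s : K} (hs : s ^ 2 = 5) {α β γ : ℚ} (hα : 0 < α)
    (hβ : 0 < β) (hγ : 0 < γ) (h : α + β + γ = 1) {φ ψ : K →+* ℝ} (hφψ : φ ≠ ψ) (T N x y : ℝ)
    {ε : ℝ} (hε : 0 < ε) : ∃ t : 𝓞 K × 𝓞 K × 𝓞 K, Shaped T α β γ t ∧ N ≤ height t ∧
      T * rad (t.1 * t.2.1 * t.2.2) ≤ height t ∧ |φ (t.1 / t.2.2) - x| < ε ∧
      |ψ (t.1 / t.2.2) - y| < ε := by
  classical
  have := Pool.Agent.Y382.Gold.pid hK hs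
  obtain ⟨z, hz⟩ : ∃ z : InfinitePlace K → ℂ, z = fun w =>
    if w.embedding = Complex.ofRealHom.comp φ then ((-x : ℝ) : ℂ) else ((-y : ℝ) : ℂ) := ⟨_, rfl⟩
  have hzc : ∀ w, z w = ((-x : ℝ) : ℂ) ∨ z w = ((-y : ℝ) : ℂ) := by
    intro w
    rw [hz]
    simp only
    split_ifs
    · exact Or.inl rfl
    · exact Or.inr rfl
  have hS : H584.NF.Shape K α β γ z := by
    refine H584.NF.shape_avoid hα hβ hγ h z (fun w _ => ?_) ?_
    · rcases hzc w with e | e <;> rw [e] <;> exact Complex.ofReal_im _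
    · by_cases h1 : -x ≤ 1 ∧ -y ≤ 1
      · left
        intro w _
        rcases hzc w with e | e <;> rw [e, Complex.ofReal_re]
        · exact h1.1
        · exact h1.2
      · by_cases h2 : 0 ≤ -x ∧ 0 ≤ -y
        · right; left
          intro w _
          rcases hzc w with e | e <;> rw [e, Complex.ofReal_re]
          · exact h2.1
          · exact h2.2
        · right; right
          have h3 : (-x ≤ 0 ∨ 1 ≤ -x) ∧ (-y ≤ 0 ∨ 1 ≤ -y) := by
            rw [not_and_or, not_le, not_le] at h1 h2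
            constructor
            · rcases h1 with h1 | h1 <;> rcases h2 with h2 | h2
              · left; linarith
              · right; linarith
              · left; linarith
              · exfalso; linarith
            · rcases h1 with h1 | h1 <;> rcases h2 with h2 | h2
              · exfalso; linarith
              · left; linarith
              · right; linarith
              · left; linarith
          intro w _
          rcases hzc w with e | e <;> rw [e, Complex.ofReal_re]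
          · exact h3.1
          · exact h3.2
  have hα' : (0 : ℝ) < α := by exact_mod_cast hα
  have hβ' : (0 : ℝ) < β := by exact_mod_cast hβ
  have hγ' : (0 : ℝ) < γ := by exact_mod_cast hγ
  have hsum : (α : ℝ) + β + γ = 1 := by exact_mod_cast h
  obtain ⟨a, b, c, ha, hb, hc, habc, hcop, ⟨N1, -, -⟩, r1, r2, r3, hp⟩ :=
    H584.NF.pid_triple hα'.le (by linarith) hβ'.le (by linarith) hγ'.le (by linarith) hS hε
      (max T 1) N
  have hT1 : (1 : ℝ) ≤ max T 1 := le_max_right _ _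
  have hTT : T ≤ max T 1 := le_max_left _ _
  have key : ∀ {w : 𝓞 K} {s : ℝ}, w ≠ 0 → max T 1 * H584.NF.RN w ≤ (H584.NF.nn w : ℝ) ^ s →
      T * rad w ≤ nm w ^ s := by
    intro w s hw h1
    rw [nm_eq]
    refine le_trans ?_ h1
    calc T * rad w ≤ max T 1 * rad w := mul_le_mul_of_nonneg_right hTT (rad_nonneg w)
      _ ≤ max T 1 * H584.NF.RN w := by
          have := rad_le hw
          gcongr
  obtain ⟨t, ht⟩ : ∃ t : 𝓞 K × 𝓞 K × 𝓞 K, t = (a, b, -c) := ⟨_, rfl⟩
  have hh := nm_le_height t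
  have hH : T * rad (t.1 * t.2.1 * t.2.2) ≤ height t := by
    rw [nm_eq, nm_eq, nm_eq, ht] at hh
    simp only at hh
    rw [H584.NF.nn_neg] at hh
    obtain ⟨h1, h2, h3⟩ := hh
    have hne : a * b * (-c) ≠ 0 := mul_ne_zero (mul_ne_zero ha hb) (neg_ne_zero.2 hc)
    have g1 : T * rad (t.1 * t.2.1 * t.2.2) ≤ max T 1 * H584.NF.RN (a * b * (-c)) := by
      rw [ht]
      simp only
      calc T * rad (a * b * (-c)) ≤ max T 1 * rad (a * b * (-c)) :=
            mul_le_mul_of_nonneg_right hTT (rad_nonneg _)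
        _ ≤ _ := by
            have := rad_le hne
            gcongr
    have g2 : (H584.NF.RN (a * b * (-c)) : ℝ) ≤ H584.NF.RN a * H584.NF.RN b * H584.NF.RN c := by
      have e1 := H584.NF.RN_mul (a * b) (-c)
      have e2 := H584.NF.RN_mul a b
      rw [H584.NF.RN_neg] at e1
      exact_mod_cast e1.trans (Nat.mul_le_mul_right _ e2)
    have hH0 : 0 < height (a, b, -c) := by
      refine lt_of_lt_of_le ?_ h1
      exact_mod_cast H584.NF.nn_pos ha
    have q1 : max T 1 * H584.NF.RN a ≤ height (a, b, -c) ^ (α : ℝ) :=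
      r1.trans (Real.rpow_le_rpow (by positivity) h1 hα'.le)
    have q2 : max T 1 * H584.NF.RN b ≤ height (a, b, -c) ^ (β : ℝ) :=
      r2.trans (Real.rpow_le_rpow (by positivity) h2 hβ'.le)
    have q3 : max T 1 * H584.NF.RN c ≤ height (a, b, -c) ^ (γ : ℝ) :=
      r3.trans (Real.rpow_le_rpow (by positivity) h3 hγ'.le)
    have q4 : (max T 1 * H584.NF.RN a) * (max T 1 * H584.NF.RN b) * (max T 1 * H584.NF.RN c) ≤
        height (a, b, -c) := by
      calc (max T 1 * H584.NF.RN a) * (max T 1 * H584.NF.RN b) * (max T 1 * H584.NF.RN c) ≤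
            height (a, b, -c) ^ (α : ℝ) * height (a, b, -c) ^ (β : ℝ) *
              height (a, b, -c) ^ (γ : ℝ) := by gcongr
        _ = height (a, b, -c) := by
            rw [← Real.rpow_add hH0, ← Real.rpow_add hH0, hsum, Real.rpow_one]
    rw [ht] at g1 ⊢
    refine g1.trans (le_trans ?_ q4)
    have q5 : max T 1 * (H584.NF.RN a * H584.NF.RN b * H584.NF.RN c) ≤
        (max T 1 * H584.NF.RN a) * (max T 1 * H584.NF.RN b) * (max T 1 * H584.NF.RN c) := by
      have : (1 : ℝ) ≤ max T 1 * max T 1 := by nlinarith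
      calc max T 1 * (H584.NF.RN a * H584.NF.RN b * H584.NF.RN c) =
            1 * (max T 1 * (H584.NF.RN a * H584.NF.RN b * H584.NF.RN c)) := (one_mul _).symm
        _ ≤ (max T 1 * max T 1) * (max T 1 * (H584.NF.RN a * H584.NF.RN b * H584.NF.RN c)) := by
            gcongr
        _ = _ := by ring
    refine le_trans ?_ q5
    gcongr
  have pos : ∀ (χ : K →+* ℝ) (r : ℝ), z (InfinitePlace.mk (Complex.ofRealHom.comp χ)) =
      ((-r : ℝ) : ℂ) → |χ (t.1 / t.2.2) - r| < ε := by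
    intro χ r hr
    have h1 := hp (InfinitePlace.mk (Complex.ofRealHom.comp χ))
    rw [hr, InfinitePlace.embedding_mk_eq_of_isReal (isReal_ofReal χ)] at h1
    have e : (Complex.ofRealHom.comp χ) (a : K) / (Complex.ofRealHom.comp χ) (c : K) -
        ((-r : ℝ) : ℂ) = ((-(χ (t.1 / t.2.2) - r) : ℝ) : ℂ) := by
      rw [ht]
      have hm : χ ((a : K) / ((-c : 𝓞 K) : K)) = -(χ (a : K) / χ (c : K)) := by
        have : ((-c : 𝓞 K) : K) = -(c : K) := by push_cast; rfl
        rw [this, map_div₀, map_neg, div_neg]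
      simp only [hm]
      simp only [RingHom.comp_apply, Complex.ofRealHom_eq_coe]
      push_cast
      ring
    rw [e, Complex.norm_real, Real.norm_eq_abs, abs_neg] at h1
    exact h1
  refine ⟨t, ⟨⟨?_, ?_, ?_⟩, ?_, ?_, ?_⟩, ?_, hH, pos φ x ?_, pos ψ y ?_⟩
  · rw [ht]
    simp only
    rw [habc]
    ring
  · rw [ht]
    exact mul_ne_zero (mul_ne_zero ha hb) (neg_ne_zero.2 hc)
  · rw [ht, Ideal.eq_top_iff_one]
    obtain ⟨u, v, huv⟩ := hcop
    simp only
    rw [← huv]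
    refine Ideal.add_mem _ (Ideal.mul_mem_left _ _ (Ideal.subset_span (by simp)))
      (Ideal.mul_mem_left _ _ (Ideal.subset_span (by simp)))
  · rw [ht]
    exact key ha r1
  · rw [ht]
    exact key hb r2
  · rw [ht]
    simp only
    rw [rad_neg, nm_neg]
    exact key hc r3
  · rw [nm_eq, ht] at hh
    rw [ht]
    exact N1.trans hh.1
  · rw [hz]
    simp only
    rw [InfinitePlace.embedding_mk_eq_of_isReal (isReal_ofReal φ), if_pos rfl]
  · rw [hz]
    simp only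
    rw [InfinitePlace.embedding_mk_eq_of_isReal (isReal_ofReal ψ), if_neg]
    intro h1
    apply hφψ
    ext w
    have := RingHom.congr_fun h1 w
    simpa using this.symm

lemma Shaped.swap12 {T α β γ : ℝ} {t : 𝓞 K × 𝓞 K × 𝓞 K} (h : Shaped T α β γ t) :
    Shaped T β α γ (t.2.1, t.1, t.2.2) where
  triple := ⟨by rw [← h.triple.sum]; ring, by
    have := h.triple.ne
    rwa [mul_comm t.1] at this, by rw [← h.triple.cop, Set.insert_comm]⟩
  fst := h.snd
  snd := h.fst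
  trd := h.trd

lemma Shaped.swap23 {T α β γ : ℝ} {t : 𝓞 K × 𝓞 K × 𝓞 K} (h : Shaped T α β γ t) :
    Shaped T α γ β (t.1, t.2.2, t.2.1) where
  triple := ⟨by rw [← h.triple.sum]; ring, by
    have := h.triple.ne
    rwa [mul_right_comm] at this, by rw [← h.triple.cop, Set.pair_comm]⟩
  fst := h.fst
  snd := h.trd
  trd := h.snd

lemma height_swap12 (t : 𝓞 K × 𝓞 K × 𝓞 K) : height (t.2.1, t.1, t.2.2) = height t :=
  Finset.prod_congr rfl fun _ _ => max_left_comm _ _ _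

lemma height_swap23 (t : 𝓞 K × 𝓞 K × 𝓞 K) : height (t.1, t.2.2, t.2.1) = height t :=
  Finset.prod_congr rfl fun φ _ => by rw [max_comm ‖φ (t.2.2 : K)‖]

/-- there are triples of the shape of arbitrarily large height -/
def Many (K : Type) [Field K] [NumberField K] (α β γ : ℝ) : Prop :=
  ∀ N : ℝ, ∃ t : 𝓞 K × 𝓞 K × 𝓞 K, Shaped 1 α β γ t ∧ N ≤ height t

lemma Many.swap12 {α β γ : ℝ} (h : Many K α β γ) : Many K β α γ := fun N => by
  obtain ⟨t, ht, hN⟩ := h N
  exact ⟨_, ht.swap12, by rw [height_swap12]; exact hN⟩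

lemma Many.swap23 {α β γ : ℝ} (h : Many K α β γ) : Many K α γ β := fun N => by
  obtain ⟨t, ht, hN⟩ := h N
  exact ⟨_, ht.swap23, by rw [height_swap23]; exact hN⟩

lemma rad_unit {x : 𝓞 K} (hx : IsUnit x) : rad x = 1 := by
  unfold rad
  have : ∀ P : HeightOneSpectrum (𝓞 K), ¬ x ∈ P.asIdeal := fun P h =>
    P.isPrime.ne_top (Ideal.eq_top_of_isUnit_mem _ h hx)
  simp [this]

lemma nm_unit {x : 𝓞 K} (hx : IsUnit x) : nm x = 1 := by
  unfold nm
  rcases Int.isUnit_iff.1 (hx.map (Algebra.norm ℤ)) with h | h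
  · rw [show Algebra.norm ℤ x = 1 from h]
    simp
  · rw [show Algebra.norm ℤ x = -1 from h]
    simp

lemma unit_ineq {x : 𝓞 K} (hx : IsUnit x) (s : ℝ) : 1 * rad x ≤ nm x ^ s := by
  rw [rad_unit hx, nm_unit hx, Real.one_rpow, one_mul]

/-- the radical of a natural number -/
def R (m : ℕ) : ℕ := ∏ p ∈ m.primeFactors, p

lemma nm_nat (hK : Module.finrank ℚ K = 2) (b : ℕ) : nm (b : 𝓞 K) = (b : ℝ) ^ 2 := by
  rw [nm_eq, H584.NF.nn_nat _ H584.NF.nn_prod, Embeddings.card K ℂ, hK]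
  push_cast
  rfl

lemma rad_nat (hK : Module.finrank ℚ K = 2) {b : ℕ} (hb : b ≠ 0) : rad (b : 𝓞 K) ≤ (R b : ℝ) ^ 2 := by
  have hb' : (b : 𝓞 K) ≠ 0 := by exact_mod_cast hb
  obtain ⟨e, he⟩ := UniqueFactorizationMonoid.exists_dvd_radical_self_pow hb
  rw [Nat.radical_eq_prod_primeFactors] at he
  have hR : 0 < R b := Finset.prod_pos fun q hq => (Nat.prime_of_mem_primeFactors hq).pos
  have h1 := H584.NF.RN_nat _ (H584.NF.nn_prod (K := K)) (a := b) (W := R b) (e := e) hR he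
  rw [Embeddings.card K ℂ, hK] at h1
  exact (rad_le hb').trans (by exact_mod_cast h1)

lemma nat_ineq (hK : Module.finrank ℚ K = 2) {b : ℕ} (hb : b ≠ 0) {s : ℝ}
    (h : (R b : ℝ) ≤ (b : ℝ) ^ s) : 1 * rad (b : 𝓞 K) ≤ nm (b : 𝓞 K) ^ s := by
  rw [one_mul, nm_nat hK]
  have h1 : (((b : ℝ) ^ 2) ^ s : ℝ) = ((b : ℝ) ^ s) ^ 2 := by
    rw [← Real.rpow_natCast (b : ℝ) 2, ← Real.rpow_mul (Nat.cast_nonneg b), mul_comm,
      Real.rpow_mul (Nat.cast_nonneg b), Real.rpow_natCast]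
  rw [h1]
  exact (rad_nat hK hb).trans (pow_le_pow_left₀ (Nat.cast_nonneg _) h 2)

lemma consecutive {β : ℚ} (h0 : 0 < β) (h1 : β < 1) (N : ℕ) :
    ∃ b : ℕ, N ≤ b ∧ 0 < b ∧ (R b : ℝ) ≤ (b : ℝ) ^ (β : ℝ) ∧
      (R (b + 1) : ℝ) ≤ ((b + 1 : ℕ) : ℝ) ^ (1 - β : ℝ) := by
  obtain ⟨a, ha⟩ := Int.eq_ofNat_of_zero_le (Rat.num_pos.2 h0).le
  have ha0 : 0 < a := by have := Rat.num_pos.2 h0; omega
  have hlt : a < β.den := by
    have := Rat.num_lt_denom_iff.2 h1
    omega
  have e : (β : ℝ) = (a : ℝ) / β.den := by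
    rw [Rat.cast_def, ha]
    simp
  have hd : (0 : ℝ) < β.den := by exact_mod_cast β.pos
  obtain ⟨b, hN, hb, r1, r2⟩ := H584.SH.main2 (n := 2 * (β.den - a)) (m := 2 * a - 1)
    (even_two_mul _) (by omega) 1 N
  have i2 : 2 * (β.den - a) + (2 * a - 1) + 1 = 2 * β.den := by omega
  have k1 : ((2 * a - 1 + 1 : ℕ) : ℝ) / (2 * (β.den - a) + (2 * a - 1) + 1 : ℕ) = β := by
    have i1 : 2 * a - 1 + 1 = 2 * a := by omega
    rw [i1, i2, e]
    push_cast
    field_simp
  have k2 : ((2 * (β.den - a) : ℕ) : ℝ) / (2 * (β.den - a) + (2 * a - 1) + 1 : ℕ) = 1 - β := by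
    rw [i2, e]
    push_cast [hlt.le]
    field_simp
  rw [k1, one_mul] at r1
  rw [k2, one_mul] at r2
  exact ⟨b, hN, hb, r1, r2⟩

lemma many_zero (hK : Module.finrank ℚ K = 2) {β γ : ℚ} (hβ : 0 < β) (hγ : 0 < γ)
    (h : β + γ = 1) : Many K 0 β γ := by
  intro N
  obtain ⟨N', hN'⟩ := exists_nat_ge N
  obtain ⟨b, hNb, hb, r1, r2⟩ := consecutive hβ (by linarith) N'
  have hg : (1 - β : ℝ) = (γ : ℝ) := by
    have : γ = 1 - β := by linarith
    rw [this]
    push_cast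
    ring
  rw [hg] at r2
  have hb0 : (b : 𝓞 K) ≠ 0 := by exact_mod_cast hb.ne'
  have hb1 : ((b + 1 : ℕ) : 𝓞 K) ≠ 0 := by exact_mod_cast Nat.succ_ne_zero b
  obtain ⟨t, ht⟩ : ∃ t : 𝓞 K × 𝓞 K × 𝓞 K, t = (1, (b : 𝓞 K), -((b + 1 : ℕ) : 𝓞 K)) := ⟨_, rfl⟩
  refine ⟨t, ⟨⟨?_, ?_, ?_⟩, ?_, ?_, ?_⟩, ?_⟩
  · rw [ht]
    push_cast
    ring
  · rw [ht]
    exact mul_ne_zero (mul_ne_zero one_ne_zero hb0) (neg_ne_zero.2 hb1)
  · rw [ht, Ideal.eq_top_iff_one]
    exact Ideal.subset_span (by simp)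
  · rw [ht]
    exact unit_ineq isUnit_one _
  · rw [ht]
    exact nat_ineq hK hb.ne' r1
  · rw [ht]
    simp only
    rw [rad_neg, nm_neg]
    exact nat_ineq hK (Nat.succ_ne_zero b) r2
  · have h1 := (nm_le_height t).2.1
    rw [ht] at h1 ⊢
    simp only at h1
    rw [nm_nat hK] at h1
    refine le_trans ?_ h1
    have h2 : (1 : ℝ) ≤ b := by exact_mod_cast hb
    have h3 : (N' : ℝ) ≤ b := by exact_mod_cast hNb
    nlinarith

/-- a unit with a conjugate larger than one -/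
lemma exists_unit {s : K} (hs : s ^ 2 = 5) (τ : K →+* ℂ) :
    ∃ u : 𝓞 K, IsUnit u ∧ 1 < ‖τ (u : K)‖ := by
  obtain ⟨θ, hθ⟩ : ∃ θ : 𝓞 K, (θ : K) = (1 + s) / 2 := ⟨⟨_, Pool.Agent.Y382.Gold.phi_int hs⟩, rfl⟩
  have h1 : θ * (θ - 1) = 1 := by
    apply FaithfulSMul.algebraMap_injective (𝓞 K) K
    rw [map_mul, map_sub, map_one, show algebraMap (𝓞 K) K θ = (1 + s) / 2 from hθ]
    field_simp
    linear_combination hs
  have hu1 : IsUnit θ := IsUnit.of_mul_eq_one _ h1
  have hu2 : IsUnit (θ - 1) := IsUnit.of_mul_eq_one _ (by rw [mul_comm]; exact h1)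
  have h5 : (2 : ℝ) < √5 := by
    rw [Real.lt_sqrt (by norm_num)]
    norm_num
  have hsq : (√5 : ℝ) ^ 2 = 5 := Real.sq_sqrt (by norm_num)
  have h2 : (τ s - (√5 : ℝ)) * (τ s + (√5 : ℝ)) = 0 := by
    have h3 : τ s ^ 2 = 5 := by rw [← map_pow, hs, map_ofNat]
    have h4 : (((√5 : ℝ) : ℂ)) ^ 2 = 5 := by exact_mod_cast hsq
    linear_combination h3 - h4
  rcases mul_eq_zero.1 h2 with h3 | h3
  · refine ⟨θ, hu1, ?_⟩
    have e : τ (θ : K) = (((1 + √5) / 2 : ℝ) : ℂ) := by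
      rw [hθ, map_div₀, map_add, map_one, map_ofNat, sub_eq_zero.1 h3]
      push_cast
      rfl
    rw [e, Complex.norm_real, Real.norm_eq_abs, abs_of_pos (by positivity)]
    linarith
  · refine ⟨θ - 1, hu2, ?_⟩
    have e : τ ((θ - 1 : 𝓞 K) : K) = ((-((1 + √5) / 2) : ℝ) : ℂ) := by
      have h4 : ((θ - 1 : 𝓞 K) : K) = (s - 1) / 2 := by
        rw [RingOfIntegers.coe_eq_algebraMap, map_sub, map_one,
          show algebraMap (𝓞 K) K θ = (1 + s) / 2 from hθ]
        ring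
      rw [h4, map_div₀, map_sub, map_one, map_ofNat, eq_neg_of_add_eq_zero_left h3]
      push_cast
      ring
    rw [e, Complex.norm_real, Real.norm_eq_abs, abs_neg, abs_of_pos (by positivity)]
    linarith

lemma many_unit {s : K} (hs : s ^ 2 = 5) : Many K 0 0 1 := by
  classical
  intro N
  obtain ⟨τ⟩ : Nonempty (K →+* ℂ) := inferInstance
  obtain ⟨u, hu, hu1⟩ := exists_unit hs τ
  obtain ⟨n, hn⟩ := pow_unbounded_of_one_lt (max N 1) hu1
  have hun : IsUnit (u ^ n) := hu.pow n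
  have hτ : ‖τ ((u ^ n : 𝓞 K) : K)‖ = ‖τ (u : K)‖ ^ n := by
    push_cast
    rw [map_pow, norm_pow]
  have hc : 1 + u ^ n ≠ 0 := by
    intro h0
    have h1 : u ^ n = -1 := by linear_combination h0
    rw [h1] at hτ
    push_cast at hτ
    rw [map_neg, map_one, norm_neg, norm_one] at hτ
    have := le_max_right N 1
    linarith
  obtain ⟨t, ht⟩ : ∃ t : 𝓞 K × 𝓞 K × 𝓞 K, t = (1, u ^ n, -(1 + u ^ n)) := ⟨_, rfl⟩
  refine ⟨t, ⟨⟨?_, ?_, ?_⟩, ?_, ?_, ?_⟩, ?_⟩
  · rw [ht]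
    ring
  · rw [ht]
    exact mul_ne_zero (mul_ne_zero one_ne_zero hun.ne_zero) (neg_ne_zero.2 hc)
  · rw [ht, Ideal.eq_top_iff_one]
    exact Ideal.subset_span (by simp)
  · rw [ht]
    exact unit_ineq isUnit_one _
  · rw [ht]
    exact unit_ineq hun _
  · rw [ht]
    simp only
    rw [rad_neg, nm_neg, Real.rpow_one, one_mul, nm_eq]
    refine (rad_le hc).trans ?_
    exact_mod_cast H584.NF.RN_le hc
  · unfold height
    rw [← Finset.mul_prod_erase Finset.univ _ (Finset.mem_univ τ)]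
    have h1 : N ≤ max ‖τ (t.1 : K)‖ (max ‖τ (t.2.1 : K)‖ ‖τ (t.2.2 : K)‖) := by
      refine le_trans ?_ ((le_max_left _ _).trans (le_max_right _ _))
      rw [ht]
      simp only
      rw [hτ]
      exact (le_max_left _ _).trans hn.le
    have h2 : (1 : ℝ) ≤ ∏ φ ∈ Finset.univ.erase τ,
        max ‖φ (t.1 : K)‖ (max ‖φ (t.2.1 : K)‖ ‖φ (t.2.2 : K)‖) := by
      calc (1 : ℝ) = ∏ φ ∈ Finset.univ.erase τ, (1 : ℝ) := (Finset.prod_const_one).symm
        _ ≤ _ := by
            refine Finset.prod_le_prod (fun _ _ => zero_le_one) fun φ _ => ?_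
            refine le_trans ?_ (le_max_left _ _)
            rw [ht]
            simp
    have h3 : 0 ≤ max ‖τ (t.1 : K)‖ (max ‖τ (t.2.1 : K)‖ ‖τ (t.2.2 : K)‖) :=
      (norm_nonneg _).trans (le_max_left _ _)
    calc N ≤ max ‖τ (t.1 : K)‖ (max ‖τ (t.2.1 : K)‖ ‖τ (t.2.2 : K)‖) * 1 := by rwa [mul_one]
      _ ≤ _ := mul_le_mul_of_nonneg_left h2 h3

lemma exists_embeddings (hK : Module.finrank ℚ K = 2) {s : K} (hs : s ^ 2 = 5) :
    ∃ φ ψ : K →+* ℝ, φ ≠ ψ := by
  have hreal : ∀ τ : K →+* ℂ, ComplexEmbedding.IsReal τ := by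
    intro τ
    rw [ComplexEmbedding.isReal_iff]
    ext x
    obtain ⟨u, v, rfl⟩ := Pool.Agent.Y382.Gold.exists_coord hK hs x
    have hsq : (√5 : ℝ) ^ 2 = 5 := Real.sq_sqrt (by norm_num)
    have h2 : (τ s - (√5 : ℝ)) * (τ s + (√5 : ℝ)) = 0 := by
      have h3 : τ s ^ 2 = 5 := by rw [← map_pow, hs, map_ofNat]
      have h4 : (((√5 : ℝ) : ℂ)) ^ 2 = 5 := by exact_mod_cast hsq
      linear_combination h3 - h4
    have h5 : (starRingEnd ℂ) (τ s) = τ s := by
      rcases mul_eq_zero.1 h2 with h3 | h3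
      · rw [sub_eq_zero.1 h3, Complex.conj_ofReal]
      · rw [eq_neg_of_add_eq_zero_left h3, map_neg, Complex.conj_ofReal]
    rw [ComplexEmbedding.conjugate_coe_eq, map_add, map_mul, map_add, map_mul, h5]
    simp
  have hcard : Fintype.card (K →+* ℂ) = 2 := by rw [Embeddings.card K ℂ, hK]
  obtain ⟨τ₁, τ₂, hne⟩ := Fintype.exists_pair_of_one_lt_card (α := K →+* ℂ) (by omega)
  refine ⟨(hreal τ₁).embedding, (hreal τ₂).embedding, fun h => hne ?_⟩
  ext x
  rw [← (hreal τ₁).coe_embedding_apply x, ← (hreal τ₂).coe_embedding_apply x, h]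

/-- **Main theorem.** Let `K = ℚ(√5)`, with the two embeddings `φ, ψ` in `ℝ`, and let `α`, `β`, `γ` be
rational numbers with `α + β + γ = 1`.
(1) If `α, β, γ > 0`, then for all real `T`, `N`, `x`, `y` and `ε > 0` there is a triple
`a + b + c = 0` in lowest terms with `T rad(a) ≤ |N(a)| ^ α`, `T rad(b) ≤ |N(b)| ^ β`,
`T rad(c) ≤ |N(c)| ^ γ`, `T rad(a, b, c) ≤ H(a, b, c)`, of height `H(a, b, c) ≥ N`, such that the
conjugates of `a / c` satisfy `|φ(a / c) - x| < ε` and `|ψ(a / c) - y| < ε`.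
(2) If `α, β, γ ≥ 0`, there are triples of arbitrarily large height with `rad(a) ≤ |N(a)| ^ α`,
`rad(b) ≤ |N(b)| ^ β`, `rad(c) ≤ |N(c)| ^ γ`. -/
theorem result (K : Type) [Field K] [NumberField K] (hK : Module.finrank ℚ K = 2)
    (h5 : ∃ s : K, s ^ 2 = 5) (α β γ : ℚ) (hsum : α + β + γ = 1) :
    (0 < α → 0 < β → 0 < γ → ∀ φ ψ : K →+* ℝ, φ ≠ ψ → ∀ T N x y ε : ℝ, 0 < ε →
      ∃ t : 𝓞 K × 𝓞 K × 𝓞 K, Shaped T α β γ t ∧ N ≤ height t ∧
        T * rad (t.1 * t.2.1 * t.2.2) ≤ height t ∧ |φ (t.1 / t.2.2) - x| < ε ∧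
        |ψ (t.1 / t.2.2) - y| < ε) ∧
    (0 ≤ α → 0 ≤ β → 0 ≤ γ → ∀ N : ℝ, ∃ t : 𝓞 K × 𝓞 K × 𝓞 K, Shaped 1 α β γ t ∧ N ≤ height t) := by
  obtain ⟨s, hs⟩ := h5
  refine ⟨fun hα hβ hγ φ ψ hφψ T N x y ε hε => part1 hK hs hα hβ hγ hsum hφψ T N x y hε,
    fun hα hβ hγ => ?_⟩
  show Many K α β γ
  have z0 : ((0 : ℚ) : ℝ) = 0 := Rat.cast_zero
  have z1 : ((1 : ℚ) : ℝ) = 1 := Rat.cast_one
  rcases eq_or_lt_of_le hα with ha | ha
  · rcases eq_or_lt_of_le hβ with hb | hb
    · have hc : γ = 1 := by linarith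
      rw [← ha, ← hb, hc, z0, z1]
      exact many_unit hs
    · rcases eq_or_lt_of_le hγ with hc | hc
      · have hb1 : β = 1 := by linarith
        rw [← ha, ← hc, hb1, z0, z1]
        exact (many_unit hs).swap23
      · have := many_zero hK hb hc (by linarith)
        rw [← ha, z0]
        exact this
  · rcases eq_or_lt_of_le hβ with hb | hb
    · rcases eq_or_lt_of_le hγ with hc | hc
      · have ha1 : α = 1 := by linarith
        rw [← hb, ← hc, ha1, z0, z1]
        exact (many_unit hs).swap23.swap12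
      · have := (many_zero hK ha hc (by linarith)).swap12
        rw [← hb, z0]
        exact this
    · rcases eq_or_lt_of_le hγ with hc | hc
      · have := (many_zero hK ha hb (by linarith)).swap12.swap23
        rw [← hc, z0]
        exact this
      · obtain ⟨φ, ψ, hφψ⟩ := exists_embeddings hK hs
        intro N
        obtain ⟨t, h1, h2, -⟩ := part1 hK hs ha hb hc hsum hφψ 1 N 0 0 one_pos
        exact ⟨t, h1, h2⟩

end Pool.Agent.Results.MP_2a5a28_nt.RadicalShapes
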